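import Pool.Agent.H921S.Defs

/-!
# Transfer between the clause types of the frozen statement and of `H921S`
-/

set_option autoImplicit false

namespace Pool.Agent.V11329.TwoSat

open Finset Pool.Agent.H921S

noncomputable section

abbrev X (k n : ℕ) := {c : Finset (Fin n × Bool) // c.card = k ∧ (c.image Prod.fst).card = k}

def φ (k n : ℕ) : X k n ≃ Clause k n where
  toFun c := ⟨c.1, c.2.1, by
    have h : (c.1.image Prod.fst).card = c.1.card := by rw [c.2.2, c.2.1]
    have h2 := Finset.card_image_iff.1 h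
    intro l hl l' hl' e
    exact h2 hl hl' e⟩
  invFun C := ⟨C.lits, C.card_lits, by
    rw [Finset.card_image_of_injOn]
    · exact C.card_lits
    · intro l hl l' hl' e
      exact C.distinct l hl l' hl' e⟩
  left_inv c := rfl
  right_inv C := rfl

theorem hN (k n : ℕ) : Nat.card (X k n) = Fintype.card (Clause k n) := by
  rw [Nat.card_congr (φ k n), Nat.card_eq_fintype_card]

def Ψ (k n : ℕ) : (Fin (Nat.card (X k n)) ≃ X k n) ≃ (Fin (Fintype.card (Clause k n)) ≃ Clause k n) :=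
  Equiv.equivCongr (finCongr (hN k n)) (φ k n)

theorem Ψ_symm {k n : ℕ} (e : Fin (Nat.card (X k n)) ≃ X k n) (C : Clause k n) :
    (((Ψ k n e).symm C : Fin _) : ℕ) = ((e.symm ((φ k n).symm C) : Fin _) : ℕ) := by
  simp [Ψ, Equiv.equivCongr]

def Pe (k n : ℕ) (e : Fin (Nat.card (X k n)) ≃ X k n) : Prop :=
  ∃ m : ℕ,
    (∀ j : ℕ, j < m → ∃ a : Fin n → Bool,
        ∀ c : X k n, ((e.symm c : Fin _) : ℕ) < j → ∃ l ∈ c.val, a l.1 = l.2) ∧
    ∃ H : Finset (X k n),
      H.Nonempty ∧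
      (∀ c ∈ H, ((e.symm c : Fin _) : ℕ) < m) ∧
      ∃ a : Fin n → Bool,
        (∀ c ∈ H, ∃ l ∈ c.val, a l.1 = l.2) ∧
        ∀ b : Fin n → Bool, (∀ c ∈ H, ∃ l ∈ c.val, b l.1 = l.2) →
          ∀ i : Fin n, (∃ c ∈ H, ∃ l ∈ c.val, l.1 = i) → b i = a i

theorem mem_st {k n : ℕ} (e : Fin (Nat.card (X k n)) ≃ X k n) (C : Clause k n) (j : ℕ) :
    C ∈ st (Ψ k n e) j ↔ ((e.symm ((φ k n).symm C) : Fin _) : ℕ) < j := by
  unfold st
  rw [Finset.mem_filter]
  rw [Ψ_symm]
  simp

/-- every ordering without a uniquely satisfiable subformula by unsatisfiability violates `Pe` -/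
theorem not_Pe {k n : ℕ} (e : Fin (Nat.card (X k n)) ≃ X k n)
    (h : ∀ m, (∀ j < m, Sat (st (Ψ k n e) j)) → ¬ HasUSS (st (Ψ k n e) m)) : ¬ Pe k n e := by
  rintro ⟨m, h1, H, hH, hlt, a, ha, hb⟩
  refine h m ?_ ?_
  · intro j hj
    obtain ⟨a, ha⟩ := h1 j hj
    refine ⟨a, fun C hC => ?_⟩
    rw [mem_st] at hC
    obtain ⟨l, hl, e1⟩ := ha _ hC
    exact ⟨l, hl, e1⟩
  · refine ⟨H.map (φ k n).toEmbedding, ?_, ?_, ?_, ?_⟩
    · intro C hC
      rw [Finset.mem_map_equiv] at hC
      rw [mem_st]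
      exact hlt _ hC
    · exact Finset.Nonempty.map hH
    · refine ⟨a, fun C hC => ?_⟩
      rw [Finset.mem_map_equiv] at hC
      obtain ⟨l, hl, e1⟩ := ha _ hC
      exact ⟨l, hl, e1⟩
    · have key : ∀ b : Fin n → Bool, Sol b (H.map (φ k n).toEmbedding) →
          ∀ v ∈ vars (H.map (φ k n).toEmbedding), b v = a v := by
        intro b hb' v hv
        refine hb b ?_ v ?_
        · intro c hc
          have := hb' (φ k n c) (Finset.mem_map_of_mem _ hc)
          obtain ⟨l, hl, e1⟩ := this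
          exact ⟨l, hl, e1⟩
        · unfold vars at hv
          rw [Finset.mem_biUnion] at hv
          obtain ⟨C, hC, hv⟩ := hv
          rw [Finset.mem_map_equiv] at hC
          rw [Finset.mem_image] at hv
          obtain ⟨l, hl, e1⟩ := hv
          exact ⟨_, hC, l, hl, e1⟩
      intro b b' hb1 hb2 v hv
      rw [key b hb1 v hv, key b' hb2 v hv]

theorem card_le {k n : ℕ} {δ : ℝ}
    (h : δ ≤ avg (fun σ : H921S.Ord (Clause k n) =>
      ind (∀ m, (∀ j < m, Sat (st σ j)) → ¬ HasUSS (st σ m)))) :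
    (Nat.card {e : Fin (Nat.card (X k n)) ≃ X k n // Pe k n e} : ℝ) /
      (Nat.card (Fin (Nat.card (X k n)) ≃ X k n) : ℝ) ≤ 1 - δ := by
  classical
  set Q : (Fin (Fintype.card (Clause k n)) ≃ Clause k n) → Prop :=
    fun σ => ∀ m, (∀ j < m, Sat (st σ j)) → ¬ HasUSS (st σ m) with hQ
  have hfin : Finite (Fin (Nat.card (X k n)) ≃ X k n) := Finite.of_equiv _ (Ψ k n).symm
  have hT : Nat.card (Fin (Nat.card (X k n)) ≃ X k n) =
      Fintype.card (Fin (Fintype.card (Clause k n)) ≃ Clause k n) := by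
    rw [Nat.card_congr (Ψ k n), Nat.card_eq_fintype_card]
  have h1 : Nat.card {e : Fin (Nat.card (X k n)) ≃ X k n // Pe k n e} ≤
      Fintype.card {σ : Fin (Fintype.card (Clause k n)) ≃ Clause k n // ¬ Q σ} := by
    rw [← Nat.card_eq_fintype_card]
    refine Nat.card_le_card_of_injective
      (fun e => ⟨Ψ k n e.1, fun hq => not_Pe e.1 hq e.2⟩) ?_
    intro e e' hee
    simp only [Subtype.mk.injEq] at hee
    exact Subtype.ext ((Ψ k n).injective hee)
  have h2 : avg (fun σ : H921S.Ord (Clause k n) => ind (Q σ)) =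
      (Fintype.card {σ : Fin (Fintype.card (Clause k n)) ≃ Clause k n // Q σ} : ℝ) /
        (Fintype.card (Fin (Fintype.card (Clause k n)) ≃ Clause k n) : ℝ) := by
    unfold avg ind
    congr 1
    rw [Finset.sum_boole, Fintype.card_subtype]
  have h3 := Fintype.card_subtype_compl Q
  have h4 : Fintype.card {σ : Fin (Fintype.card (Clause k n)) ≃ Clause k n // Q σ} ≤
      Fintype.card (Fin (Fintype.card (Clause k n)) ≃ Clause k n) := Fintype.card_subtype_le _
  have hpos : (0 : ℝ) < (Fintype.card (Fin (Fintype.card (Clause k n)) ≃ Clause k n) : ℝ) := by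
    have : Nonempty (Fin (Fintype.card (Clause k n)) ≃ Clause k n) :=
      ⟨(Fintype.equivFin _).symm⟩
    exact_mod_cast Fintype.card_pos
  have h5 : δ ≤ avg (fun σ : H921S.Ord (Clause k n) => ind (Q σ)) := by
    refine le_trans h (le_of_eq ?_)
    unfold avg ind
    rfl
  rw [h2, le_div_iff₀ hpos] at h5
  rw [hT, div_le_iff₀ hpos]
  have h6 : (Nat.card {e : Fin (Nat.card (X k n)) ≃ X k n // Pe k n e} : ℝ) ≤
      (Fintype.card (Fin (Fintype.card (Clause k n)) ≃ Clause k n) : ℝ) -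
      (Fintype.card {σ : Fin (Fintype.card (Clause k n)) ≃ Clause k n // Q σ} : ℝ) := by
    have h7 : Nat.card {e : Fin (Nat.card (X k n)) ≃ X k n // Pe k n e} +
      Fintype.card {σ : Fin (Fintype.card (Clause k n)) ≃ Clause k n // Q σ} ≤
      Fintype.card (Fin (Fintype.card (Clause k n)) ≃ Clause k n) := by
      omega
    have h8 : ((Nat.card {e : Fin (Nat.card (X k n)) ≃ X k n // Pe k n e} : ℕ) : ℝ) +
      ((Fintype.card {σ : Fin (Fintype.card (Clause k n)) ≃ Clause k n // Q σ} : ℕ) : ℝ) ≤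
      ((Fintype.card (Fin (Fintype.card (Clause k n)) ≃ Clause k n) : ℕ) : ℝ) := by
      exact_mod_cast h7
    linarith
  linarith

end

end Pool.Agent.V11329.TwoSat
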